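import Pool.Agent.helper7.ZD.Spec

set_option autoImplicit false

namespace Pool.Agent.ND.NY

open Pool.Agent.helper58.DC Pool.Agent.DI Pool.Agent.GR Pool.Agent.OB Pool.Agent.DR Pool.Agent.FI Pool.Agent.FI3 Pool.Agent.FI4 Pool.Agent.FI4I Pool.Agent.LE Pool.Agent.L5 Pool.Agent.NAB
open Pool.Agent.ZB (Pm Om KZ EQ BQ lQ MZc BDK)

theorem NUF_nz {G : Type} [Group G] (m : G) (D : Subgroup G) : m ∈ nz D ↔ cjS m D = D := by
  rw [Subgroup.mem_normalizer_iff]
  constructor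
  · intro h
    ext x
    rw [mem_cjS]
    have h1 := h (m⁻¹ * x * m)
    rw [show m * (m⁻¹ * x * m) * m⁻¹ = x by group] at h1
    exact h1
  · intro h x
    have h1 : m * x * m⁻¹ ∈ cjS m D ↔ m * x * m⁻¹ ∈ D := by rw [h]
    rw [mem_cjS, show m⁻¹ * (m * x * m⁻¹) * m = x by group] at h1
    exact h1

theorem NUF_ord {G : Type} [Group G] (l z : G) : orderOf (l * z * l⁻¹) = orderOf z := by
  have h := orderOf_injective (MulAut.conj l).toMonoidHom (MulAut.conj l).injective z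
  exact h

theorem NUF (hNUE : NUE_stmt) (hSBI : SBI_stmt) (hDCM : DCM_stmt) (hCLS : CLS_stmt) (hCCI : CCI_stmt) (hSYL : SYL_stmt) (hNEG : NEG_stmt) : NUF_stmt := by
  intro p e m M hS G _ _ L E η hη z x h hE ψ hSB hdf
  have hp : p.Prime := hS.pr
  haveI : Fact p.Prime := ⟨hp⟩
  have hn := (hNEG p e hp G z).2.2.2.1 x h.pe h.re h.co
  have hCz : ∀ y : G, Cz (L ⊓ nz E) y ≤ Cz L y := fun y => inf_le_inf_right _ inf_le_left
  have hCz2 : Cz L (z * x) = Cz (L ⊓ nz E) (z * x) := by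
    refine le_antisymm ?_ (hCz _)
    intro g hg
    have h1 : g ∈ nz E := by
      have := (hn L).2.2.1 hg
      rwa [hE] at this
    exact ⟨⟨hg.1, h1⟩, hg.2⟩
  have hzx : z * x ∈ L ⊓ nz E := mul_mem h.zm h.xm
  have hzxL : z * x ∈ L := hzx.1
  -- the difference
  have hcc : cc η (cls L (z * x) - cls (L ⊓ nz E) (z * x)) = cc η (cls L (z * x)) - cc η (cls (L ⊓ nz E) (z * x)) :=
    ((hCCI G (L ⊓ nz E) η hη).1 0 _ _).2.1
  have hvan : ∀ y, y ∉ L ⊓ nz E → η y = 0 := hη.1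
  have hI : InM M (cc η (cls L (z * x) - cls (L ⊓ nz E) (z * x))) := by
    refine ((hDCM G (L ⊓ nz E) M p hS).1 η _ ?_ ?_ ?_).2 ?_
    · intro l hl y
      rw [Pi.sub_apply, Pi.sub_apply, (hCLS G L (z * x)).1 l hl.1 y, (hCLS G (L ⊓ nz E) (z * x)).1 l hl y]
    · intro y
      rw [Pi.sub_apply]
      exact IntAt.sub hS (IntAt.of_isIntegral hS ((hCLS G L (z * x)).2.2.1 y)) (IntAt.of_isIntegral hS ((hCLS G (L ⊓ nz E) (z * x)).2.2.1 y))
    · intro y
      exact IntAt.of_isIntegral hS ((hCLS G (L ⊓ nz E) y).2.2.2.2.2.2.2.2 _ le_rfl η hη)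
    · intro w
      by_contra hcon
      push Not at hcon
      obtain ⟨hf, hw⟩ := hcon
      have hf0 : cls L (z * x) w ≠ cls (L ⊓ nz E) (z * x) w := by
        intro h1
        apply hf
        rw [Pi.sub_apply, h1, sub_self]
        exact InM.zero hS
      have hwH : w ∈ L ⊓ nz E := by
        by_contra hc
        apply hw
        rw [(hCLS G (L ⊓ nz E) w).2.2.2.2.2.2.1 η hvan hc]
        exact InM.zero hS
      -- `cls H w = 1` implies `cls L w = 1`
      have hH0 : cls (L ⊓ nz E) (z * x) w = 0 := by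
        rcases (hCLS G (L ⊓ nz E) (z * x)).2.2.2.2.1 w with h1 | h1
        · exact h1
        · exfalso
          apply hf0
          rw [h1]
          obtain ⟨l, hl, he⟩ := ((hCLS G (L ⊓ nz E) (z * x)).2.2.2.1 w).mp h1
          exact ((hCLS G L (z * x)).2.2.2.1 w).mpr ⟨l, hl.1, he⟩
      have hL1 : cls L (z * x) w = 1 := by
        rcases (hCLS G L (z * x)).2.2.2.2.1 w with h1 | h1
        · exact absurd (h1.trans hH0.symm) hf0
        · exact h1
      obtain ⟨l, hl, he⟩ := ((hCLS G L (z * x)).2.2.2.1 w).mp hL1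
      have hw1 : w = (l * z * l⁻¹) * (l * x * l⁻¹) := by
        rw [← he]
        group
      have hpe : PEl p (l * z * l⁻¹) := ((hSYL p G).2.2.2.2.2.2.2.2 z l).2 h.pe
      have hre : PReg p (l * x * l⁻¹) := ((hSYL p G).2.2.2.2.2.2.2.2 x l).1 h.re
      have hco : (l * z * l⁻¹) * (l * x * l⁻¹) = (l * x * l⁻¹) * (l * z * l⁻¹) := by
        have h1 : (l * z * l⁻¹) * (l * x * l⁻¹) = l * (z * x) * l⁻¹ := by group
        have h2 : (l * x * l⁻¹) * (l * z * l⁻¹) = l * (x * z) * l⁻¹ := by group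
        rw [h1, h2, h.co]
      have hmem := ((hNEG p e hp G (l * z * l⁻¹)).2.2.2.1 (l * x * l⁻¹) hpe hre hco (L ⊓ nz E)).2.2.2 (by rw [← hw1]; exact hwH)
      have hU : Ucl p e m M (L ⊓ nz E) η (l * z * l⁻¹) (l * x * l⁻¹) := by
        refine ⟨hpe, hre, hco, hmem.1, hmem.2, ?_, ?_, ?_⟩
        · rw [NUF_ord, h.od]
        · rw [← hw1]
          exact hw
        · exact h.df
      obtain ⟨k, hk, hk2⟩ := hNUE p e m M hS G (L ⊓ nz E) η hη z x (l * z * l⁻¹) (l * x * l⁻¹) h hU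
      rw [(hNEG p e hp G z).1 l, hE, (NUF_nz k E).mp hk.2] at hk2
      have hlH : l ∈ L ⊓ nz E := ⟨hl, (NUF_nz l E).mpr hk2⟩
      have h1 : cls (L ⊓ nz E) (z * x) w = 1 := ((hCLS G (L ⊓ nz E) (z * x)).2.2.2.1 w).mpr ⟨l, hlH, he⟩
      rw [hH0] at h1
      exact zero_ne_one h1
  have hne : ¬ InM M (cc η (cls L (z * x))) := by
    intro h1
    apply h.ne
    have h2 := InM.sub hS h1 hI
    rw [hcc] at h2
    have h3 : cc η (cls L (z * x)) - (cc η (cls L (z * x)) - cc η (cls (L ⊓ nz E) (z * x))) = cc η (cls (L ⊓ nz E) (z * x)) := by ring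
    rwa [h3] at h2
  refine ⟨h.pe, h.re, h.co, h.zm.1, h.xm.1, h.od, ?_, ?_⟩
  · intro h1
    exact hne (((hSBI p M hS G L η ψ hSB).2 (z * x) hzxL).mpr h1)
  · exact hdf

end Pool.Agent.ND.NY
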